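import Mathlib

set_option autoImplicit false

namespace Pool.Agent.Results.MP_12cf7c_an.NoCriticalPoint

open Filter Topology

/-- Euclidean space -/
abbrev E (n : ℕ) := EuclideanSpace ℝ (Fin n)

/-- invariance under integer translations: functions on the torus -/
def Per {n : ℕ} {β : Type} (u : E n → β) : Prop :=
  ∀ (x : E n) (k : Fin n → ℤ), u (x + WithLp.toLp 2 fun i => (k i : ℝ)) = u x

/-- global viscosity subsolution of `H(x, Du) = c` on the torus -/
def Sub {n : ℕ} (H : E n → E n → ℝ) (c : ℝ) (u : E n → ℝ) : Prop :=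
  Continuous u ∧ Per u ∧ ∀ (φ : E n → ℝ) (x : E n), ContDiff ℝ 1 φ →
    IsLocalMax (fun y => u y - φ y) x → H x (gradient φ x) ≤ c

/-- global viscosity supersolution of `H(x, Du) = c` on the torus -/
def Super {n : ℕ} (H : E n → E n → ℝ) (c : ℝ) (u : E n → ℝ) : Prop :=
  Continuous u ∧ Per u ∧ ∀ (φ : E n → ℝ) (x : E n), ContDiff ℝ 1 φ →
    IsLocalMin (fun y => u y - φ y) x → c ≤ H x (gradient φ x)

/-- the critical value -/
noncomputable def c0 {n : ℕ} (H : E n → E n → ℝ) : ℝ := sInf {c | ∃ u, Sub H c u}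

/-- the function `S_x` -/
noncomputable def S {n : ℕ} (H : E n → E n → ℝ) (x y : E n) : ℝ :=
  sSup {r | ∃ u, Sub H (c0 H) u ∧ r = u y - u x}

/-- the Hamiltonian -/
noncomputable def H0 {n : ℕ} (_x p : E n) : ℝ := (‖p‖ ^ 2 - 1) ^ 2

theorem bdd {n : ℕ} (u : E n → ℝ) (hu : Continuous u) (hp : Per u) : ∃ M, ∀ y, |u y| ≤ M := by
  obtain ⟨M, hM⟩ := (isCompact_closedBall (0 : E n) n).exists_bound_of_continuousOn hu.continuousOn
  refine ⟨M, fun y => ?_⟩
  rw [← hp y fun i => -⌊y i⌋]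
  refine hM _ ?_
  rw [mem_closedBall_zero_iff, EuclideanSpace.norm_eq, Real.sqrt_le_iff]
  refine ⟨by positivity, ?_⟩
  calc _ ≤ ∑ _i : Fin n, (1 : ℝ) := Finset.sum_le_sum fun i _ => by
        have h1 := Int.fract_nonneg (y i)
        have h2 := Int.fract_lt_one (y i)
        simp only [PiLp.add_apply, Int.cast_neg, Real.norm_eq_abs, sq_abs]
        rw [← sub_eq_add_neg, Int.self_sub_floor]; nlinarith
    _ ≤ _ := by
        simp only [Finset.sum_const, Finset.card_univ, Fintype.card_fin, nsmul_eq_mul, mul_one]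
        exact_mod_cast Nat.le_self_pow two_ne_zero n

theorem exmax {n : ℕ} (u : E n → ℝ) (hu : Continuous u) (hp : Per u) (x : E n) (a : ℝ)
    (ha : 0 < a) : ∃ z, ∀ y, u y - a * ‖y - x‖ ≤ u z - a * ‖z - x‖ := by
  obtain ⟨M, hM⟩ := bdd u hu hp
  refine Continuous.exists_forall_ge' (by fun_prop) x ?_
  filter_upwards [(isCompact_closedBall x (2 * M / a)).compl_mem_cocompact] with y hy
  simp only [Set.mem_compl_iff, mem_closedBall_iff_norm, not_le] at hy
  rw [div_lt_iff₀ ha] at hy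
  have := abs_le.1 (hM x)
  have := abs_le.1 (hM y)
  simp only [sub_self, norm_zero, mul_zero, sub_zero]
  linarith

theorem slope {n : ℕ} (c : ℝ) (u : E n → ℝ) (hu : Sub H0 c u) (x : E n) (a : ℝ) (ha : 0 < a) :
    (a ^ 2 - 1) ^ 2 ≤ c ∨ ∀ y, u y - u x ≤ a * ‖y - x‖ := by
  obtain ⟨z, hz⟩ := exmax u hu.1 hu.2.1 x a ha
  by_cases h : z = x
  · right; intro y; have := hz y; rw [h] at this; simp at this; linarith
  left
  have hr : 0 < ‖z - x‖ := norm_pos_iff.2 (sub_ne_zero.2 h)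
  have hg : HasGradientAt (fun y : E n => a / (2 * ‖z - x‖) * ‖y - x‖ ^ 2)
      ((a / ‖z - x‖) • (z - x)) z := by
    rw [hasGradientAt_iff_hasFDerivAt]
    have := (((hasFDerivAt_id z).sub_const x).norm_sq).const_mul (a / (2 * ‖z - x‖))
    refine this.congr_fderiv ?_
    ext v; simp; field_simp
  have := hu.2.2 (fun y => a / (2 * ‖z - x‖) * ‖y - x‖ ^ 2) z
    (contDiff_const.mul ((contDiff_id.sub contDiff_const).norm_sq ℝ))
    (Eventually.of_forall fun y => by
      have h1 := hz y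
      have h2 : a * ‖y - x‖ ≤ a / (2 * ‖z - x‖) * ‖y - x‖ ^ 2 + a * ‖z - x‖ / 2 := by
        rw [← sub_nonneg]
        have : a / (2 * ‖z - x‖) * ‖y - x‖ ^ 2 + a * ‖z - x‖ / 2 - a * ‖y - x‖ =
            a / (2 * ‖z - x‖) * (‖y - x‖ - ‖z - x‖) ^ 2 := by field_simp; ring
        rw [this]; positivity
      have h3 : a / (2 * ‖z - x‖) * ‖z - x‖ ^ 2 = a * ‖z - x‖ / 2 := by field_simp
      simp only [h3]; linarith)
  rwa [hg.gradient, H0, norm_smul, Real.norm_of_nonneg (by positivity),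
    div_mul_cancel₀ _ hr.ne'] at this

theorem smooth_sub {n : ℕ} (u : E n → ℝ) (hu : Differentiable ℝ u) (hp : Per u)
    (hg : ∀ x, ‖gradient u x‖ ≤ 1) : Sub H0 1 u := by
  refine ⟨hu.continuous, hp, fun φ x hφ hm => ?_⟩
  have h1 := hm.hasFDerivAt_eq_zero
    ((hu x).hasFDerivAt.sub (hφ.differentiable one_ne_zero x).hasFDerivAt)
  have h2 : gradient φ x = gradient u x := by
    unfold gradient; rw [sub_eq_zero.1 h1]
  have h3 := hg x
  have h4 := norm_nonneg (gradient u x)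
  have h5 : ‖gradient u x‖ ^ 2 ≤ 1 := by nlinarith
  rw [h2, H0]; nlinarith [sq_nonneg ‖gradient u x‖]

theorem least (n : ℕ) : IsLeast {c | ∃ u, Sub (H0 (n := n)) c u} 1 := by
  refine ⟨⟨fun _ => 0, smooth_sub _ (by fun_prop) (fun _ _ => rfl) (by simp)⟩, ?_⟩
  rintro c ⟨u, hu⟩
  obtain ⟨M, hM⟩ := bdd u hu.1 hu.2.1
  by_contra hc
  have lim : Tendsto (fun a : ℝ => (a ^ 2 - 1) ^ 2) (𝓝[>] 0) (𝓝 ((0 ^ 2 - 1) ^ 2)) :=
    (Continuous.tendsto (by fun_prop) 0).mono_left nhdsWithin_le_nhds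
  have ev := lim.eventually (lt_mem_nhds (show c < ((0 : ℝ) ^ 2 - 1) ^ 2 by norm_num; linarith))
  have hm : ∀ y, u y ≤ u 0 := by
    intro y
    have l2 : Tendsto (fun a : ℝ => a * ‖y - 0‖) (𝓝[>] 0) (𝓝 (0 * ‖y - 0‖)) :=
      (Continuous.tendsto (by fun_prop) 0).mono_left nhdsWithin_le_nhds
    have := ge_of_tendsto l2 (b := u y - u 0) (by
      filter_upwards [ev, self_mem_nhdsWithin] with a h1 h2
      exact ((slope c u hu 0 a h2).resolve_left (not_le.2 h1)) y)
    linarith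
  have := hu.2.2 (fun _ => 0) 0 contDiff_const (Eventually.of_forall fun y => by simpa using hm y)
  simp [H0] at this
  exact hc this

theorem c0_eq (n : ℕ) : c0 (H0 (n := n)) = 1 := (least n).csInf_eq

theorem result (n : ℕ) (hn : 1 ≤ n) : ∃ H : E n → E n → ℝ,
    Continuous (fun z : E n × E n => H z.1 z.2) ∧ Per H ∧
    (∀ K : ℝ, ∃ R : ℝ, ∀ x p : E n, R ≤ ‖p‖ → K ≤ H x p / ‖p‖) ∧
    IsLeast {c | ∃ u, Sub H c u} (c0 H) ∧
    (∀ x y, BddAbove {r | ∃ u, Sub H (c0 H) u ∧ r = u y - u x}) ∧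
    ∀ x, ¬ Super H (c0 H) (S H x) := by
  have hb : ∀ x y : E n, BddAbove {r | ∃ u, Sub H0 (c0 (H0 (n := n))) u ∧ r = u y - u x} := by
    intro x y
    refine ⟨2 * ‖y - x‖, ?_⟩
    rintro r ⟨u, hu, rfl⟩
    rw [c0_eq] at hu
    exact (slope 1 u hu x 2 two_pos).resolve_left (by norm_num) y
  have z1 : Sub (H0 (n := n)) 1 fun _ => 0 :=
    smooth_sub _ (by fun_prop) (fun _ _ => rfl) (by simp)
  refine ⟨H0, by unfold H0; fun_prop, fun _ _ => rfl, fun K => ⟨max K 2, fun x p hp => ?_⟩,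
    by rw [c0_eq]; exact least n, hb, fun x hx => ?_⟩
  · have h1 := (le_max_left _ _).trans hp
    have h2 := (le_max_right _ _).trans hp
    rw [le_div_iff₀ (by linarith), H0]
    have h3 : ‖p‖ ≤ ‖p‖ ^ 2 - 1 := by nlinarith
    nlinarith [mul_le_mul_of_nonneg_right h1 (norm_nonneg p)]
  let i : Fin n := ⟨0, hn⟩
  let u : E n → ℝ := fun y => (2 * Real.pi)⁻¹ * Real.sin (2 * Real.pi * (y i - x i))
  have hpi := Real.pi_pos
  have hg : ∀ y, HasGradientAt u
      (EuclideanSpace.single i (Real.cos (2 * Real.pi * (y i - x i)))) y := by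
    intro y
    rw [hasGradientAt_iff_hasFDerivAt]
    have := (((((EuclideanSpace.proj i : E n →L[ℝ] ℝ).hasFDerivAt (x := y)).sub_const
      (x i)).const_mul (2 * Real.pi)).sin).const_mul (2 * Real.pi)⁻¹
    refine this.congr_fderiv ?_
    ext v; simp [EuclideanSpace.inner_single_left]; field_simp
  have hu : Sub H0 1 u := smooth_sub u (fun y => (hg y).differentiableAt) (fun y k => by
      simp only [u, PiLp.add_apply]
      rw [show 2 * Real.pi * (y i + k i - x i) = 2 * Real.pi * (y i - x i) + k i * (2 * Real.pi) by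
        ring, Real.sin_add_int_mul_two_pi]) fun y => by
    rw [(hg y).gradient]; simpa using Real.abs_cos_le_one _
  have hS0 : S H0 x x = 0 := by
    refine IsGreatest.csSup_eq ⟨⟨_, by rw [c0_eq]; exact z1, by simp⟩, ?_⟩
    rintro r ⟨w, -, rfl⟩; simp
  have := hx.2.2 u x (by simp only [u]; fun_prop) (Eventually.of_forall fun y => by
    have := le_csSup (hb x y) ⟨u, by rw [c0_eq]; exact hu, rfl⟩
    simp only [hS0]; unfold S; linarith)
  rw [(hg x).gradient, c0_eq] at this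
  simp [H0] at this
  linarith

end Pool.Agent.Results.MP_12cf7c_an.NoCriticalPoint
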